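import Pool.Agent.Helper62K1.Defs

/-!
# Filling or removing a corner of the two new coordinates
-/

set_option autoImplicit false

namespace Pool.Agent.H62

open MeasureTheory Set Topology
open Pool.Agent.H48R3.CP (D U cs continuous_cs)

namespace Corner

/-- insertion of the two first coordinates -/
def jn {d : ℕ} (w : ℝ × ℝ) (x : Fin d → ℝ) : Fin (d + 2) → ℝ := cs w.1 (cs w.2 x)

/-- the equivalence `((s, t), x) ↦ (s, t, x)`. -/
noncomputable def ee (d : ℕ) : ((ℝ × ℝ) × (Fin d → ℝ)) ≃ᵐ (Fin (d + 2) → ℝ) :=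
  MeasurableEquiv.prodAssoc.trans
  ((MeasurableEquiv.prodCongr (MeasurableEquiv.refl ℝ)
    (MeasurableEquiv.piFinSuccAbove (fun _ : Fin (d + 1) => ℝ) 0).symm).trans
    (MeasurableEquiv.piFinSuccAbove (fun _ : Fin (d + 2) => ℝ) 0).symm)

theorem ee_apply {d : ℕ} (p : (ℝ × ℝ) × (Fin d → ℝ)) : ee d p = jn p.1 p.2 := by
  simp [ee, MeasurableEquiv.piFinSuccAbove, Fin.insertNthEquiv, cs, jn]
  exact ⟨rfl, rfl⟩

theorem ee_mp (d : ℕ) : MeasurePreserving (ee d) := by
  have h1 := (volume_preserving_piFinSuccAbove (fun _ : Fin (d + 1) => ℝ) 0).symm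
  have h2 := (volume_preserving_piFinSuccAbove (fun _ : Fin (d + 2) => ℝ) 0).symm
  exact (h2.comp ((MeasurePreserving.id volume).prod h1)).comp volume_preserving_prodAssoc

/-- the set `W × E`. -/
def P {d : ℕ} (W : Set (ℝ × ℝ)) (E : Set (Fin d → ℝ)) : Set (Fin (d + 2) → ℝ) :=
  {y | (y 0, y 1) ∈ W ∧ (fun i : Fin d => y i.succ.succ) ∈ E}

theorem ee_pre {d : ℕ} (W : Set (ℝ × ℝ)) (E : Set (Fin d → ℝ)) :
    ee d ⁻¹' (P W E) = W ×ˢ E := by
  ext p
  rw [mem_preimage, ee_apply]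
  rfl

theorem meas_P {d : ℕ} {W : Set (ℝ × ℝ)} {E : Set (Fin d → ℝ)} (hW : MeasurableSet W)
    (hE : MeasurableSet E) : MeasurableSet (P W E) := by
  rw [← (ee d).measurableSet_preimage, ee_pre]
  exact hW.prod hE

theorem vol_P {d : ℕ} {W : Set (ℝ × ℝ)} {E : Set (Fin d → ℝ)} (hW : MeasurableSet W)
    (hE : MeasurableSet E) :
    volume (P W E) = volume W * volume E := by
  rw [← (ee_mp d).measure_preimage (meas_P hW hE).nullMeasurableSet, ee_pre,
    Measure.volume_eq_prod, Measure.prod_prod]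

theorem int_P {d : ℕ} {W : Set (ℝ × ℝ)} {E : Set (Fin d → ℝ)} (g : (Fin (d + 2) → ℝ) → ℝ) :
    ∫ y in P W E, g y = ∫ p in W ×ˢ E, g (jn p.1 p.2) := by
  rw [← (ee_mp d).setIntegral_preimage_emb (ee d).measurableEmbedding, ee_pre]
  simp only [ee_apply]

theorem ftc {r : ℝ} (hr : 0 ≤ r) {f f' : ℝ → ℝ} (hf : ∀ s, HasDerivAt f (f' s) s)
    (hc : Continuous f') (h0 : f 0 = 0) : ∫ s in Ioo 0 r, f' s = f r := by
  rw [← integral_Ioc_eq_integral_Ioo, ← intervalIntegral.integral_of_le hr,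
      intervalIntegral.integral_eq_sub_of_hasDerivAt (fun s _ => hf s)
        (hc.intervalIntegrable _ _), h0, sub_zero]

section Field

variable {d : ℕ} (ξ : (Fin (d + 2) → ℝ) → (Fin (d + 2) → ℝ))

/-- the slice field -/
def sl (w : ℝ × ℝ) (x : Fin d → ℝ) : Fin d → ℝ := fun i => ξ (jn w x) i.succ.succ

/-- a partial derivative of a component -/
noncomputable def dd (i j : Fin (d + 2)) (y : Fin (d + 2) → ℝ) : ℝ :=
  fderiv ℝ ξ y (Pi.single i 1) j

theorem continuous_in : Continuous fun p : (ℝ × ℝ) × (Fin d → ℝ) => jn p.1 p.2 :=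
  continuous_cs.comp (continuous_fst.fst.prodMk (continuous_cs.comp
    (continuous_fst.snd.prodMk continuous_snd)))

theorem contDiff_in : ContDiff ℝ 1 fun p : (ℝ × ℝ) × (Fin d → ℝ) => jn p.1 p.2 := by
  rw [contDiff_pi]
  intro i
  refine Fin.cases ?_ (fun j => ?_) i
  · exact contDiff_fst.fst
  · refine Fin.cases ?_ (fun k => ?_) j
    · exact contDiff_fst.snd
    · exact (contDiff_apply ℝ ℝ k).comp contDiff_snd

variable {ξ} (hξ : Adm ξ)
include hξ

theorem zero_of (y : Fin (d + 2) → ℝ) (i : Fin (d + 2)) (hy : y i ≤ 0 ∨ 1 ≤ y i) : ξ y = 0 := by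
  by_contra h
  have := hξ.2.2.1 (subset_tsupport ξ h) i
  rcases hy with h1 | h1 <;> linarith [this.1, this.2]

theorem abs_le (y : Fin (d + 2) → ℝ) (i : Fin (d + 2)) : |ξ y i| ≤ 1 := by
  have h1 : (ξ y i) ^ 2 ≤ 1 :=
    (Finset.single_le_sum (f := fun i => (ξ y i) ^ 2) (fun i _ => sq_nonneg _)
      (Finset.mem_univ i)).trans (hξ.2.2.2 y)
  exact (sq_le_one_iff_abs_le_one _).1 h1

theorem adm_sl (w : ℝ × ℝ) : Adm (sl ξ w) := by
  have hemb : IsClosedEmbedding fun x : Fin d → ℝ => jn w x := by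
    refine Function.LeftInverse.isClosedEmbedding (f := fun (y : Fin (d + 2) → ℝ) (i : Fin d) => y i.succ.succ)
      (fun x => rfl) (by fun_prop) ?_
    exact continuous_in.comp (f := fun x : Fin d → ℝ => (w, x)) (by fun_prop)
  refine ⟨?_, ?_, ?_, ?_⟩
  · rw [contDiff_pi]
    intro i
    have h1 : ContDiff ℝ 1 fun x : Fin d → ℝ => ξ (jn w x) :=
      hξ.1.comp (contDiff_in.comp (f := fun x : Fin d → ℝ => (w, x)) (by fun_prop))
    exact (contDiff_pi.1 h1) i.succ.succ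
  · exact (hξ.2.1.comp_isClosedEmbedding hemb).comp_left
      (g := fun (y : Fin (d + 2) → ℝ) (i : Fin d) => y i.succ.succ) rfl
  · have h1 : tsupport (sl ξ w) ⊆ (fun x : Fin d → ℝ => jn w x) ⁻¹' tsupport ξ := by
      refine closure_minimal ?_ ((isClosed_tsupport ξ).preimage hemb.continuous)
      intro x hx
      refine subset_tsupport ξ ?_
      intro h
      apply hx
      funext i
      simp [sl, h]
    intro x hx i
    exact hξ.2.2.1 (h1 hx) i.succ.succ
  · intro x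
    have h1 := hξ.2.2.2 (jn w x)
    rw [Fin.sum_univ_succ, Fin.sum_univ_succ] at h1
    show ∑ i : Fin d, (ξ (jn w x) i.succ.succ) ^ 2 ≤ 1
    nlinarith [sq_nonneg (ξ (jn w x) 0), sq_nonneg (ξ (jn w x) (Fin.succ 0))]

theorem hasDerivAt0 (s t : ℝ) (x : Fin d → ℝ) (j : Fin (d + 2)) :
    HasDerivAt (fun s => ξ (jn (s, t) x) j) (dd ξ 0 j (jn (s, t) x)) s := by
  have h1 : HasDerivAt (fun s => jn (s, t) x) (Pi.single 0 1) s := by
    rw [hasDerivAt_pi]
    intro i
    refine Fin.cases ?_ (fun k => ?_) i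
    · simpa [jn, cs] using hasDerivAt_id' s
    · simpa [jn, cs] using hasDerivAt_const s _
  have h2 := ((hξ.1.differentiable (by norm_num)) (jn (s, t) x)).hasFDerivAt.comp_hasDerivAt s h1
  exact (hasDerivAt_pi.1 h2) j

theorem hasDerivAt1 (s t : ℝ) (x : Fin d → ℝ) (j : Fin (d + 2)) :
    HasDerivAt (fun t => ξ (jn (s, t) x) j) (dd ξ 1 j (jn (s, t) x)) t := by
  have h1 : HasDerivAt (fun t => jn (s, t) x) (Pi.single 1 1) t := by
    rw [hasDerivAt_pi]
    intro i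
    refine Fin.cases ?_ (fun k => ?_) i
    · simpa [jn, cs] using hasDerivAt_const t s
    · refine Fin.cases ?_ (fun l => ?_) k
      · simpa [jn, cs] using hasDerivAt_id' t
      · have : (Pi.single 1 1 : Fin (d + 2) → ℝ) l.succ.succ = 0 := by
          rw [Pi.single_apply, if_neg]
          intro h
          simp [Fin.ext_iff] at h
        rw [this]
        simpa [jn, cs] using hasDerivAt_const t (x l)
  have h2 := ((hξ.1.differentiable (by norm_num)) (jn (s, t) x)).hasFDerivAt.comp_hasDerivAt t h1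
  exact (hasDerivAt_pi.1 h2) j

theorem dv_sl (w : ℝ × ℝ) (x : Fin d → ℝ) :
    dv (sl ξ w) x = ∑ i : Fin d, dd ξ i.succ.succ i.succ.succ (jn w x) := by
  refine Finset.sum_congr rfl fun i _ => ?_
  -- along the line
  have h0 : HasDerivAt (fun τ : ℝ => jn w (x + τ • Pi.single i 1)) (Pi.single i.succ.succ 1) 0 := by
    rw [hasDerivAt_pi]
    intro j
    refine Fin.cases ?_ (fun k => ?_) j
    · have : (Pi.single i.succ.succ 1 : Fin (d + 2) → ℝ) 0 = 0 := by
        rw [Pi.single_apply, if_neg]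
        intro h
        simp [Fin.ext_iff] at h
      rw [this]
      simpa [jn, cs] using hasDerivAt_const (0:ℝ) w.1
    · refine Fin.cases ?_ (fun l => ?_) k
      · have : (Pi.single i.succ.succ 1 : Fin (d + 2) → ℝ) (Fin.succ 0) = 0 := by
          rw [Pi.single_apply, if_neg]
          intro h
          simp [Fin.ext_iff] at h
        rw [this]
        simpa [jn, cs] using hasDerivAt_const (0:ℝ) w.2
      · have h3 : (Pi.single i.succ.succ 1 : Fin (d + 2) → ℝ) l.succ.succ =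
            (Pi.single i 1 : Fin d → ℝ) l := by
          simp [Pi.single_apply, Fin.ext_iff]
        rw [h3]
        have h4 := ((hasDerivAt_id' (0:ℝ)).mul_const ((Pi.single i 1 : Fin d → ℝ) l)).const_add (x l)
        simpa [jn, cs] using h4
  have hjn : jn w (x + (0:ℝ) • Pi.single i 1) = jn w x := by simp
  have h1 : HasDerivAt (fun τ : ℝ => ξ (jn w (x + τ • Pi.single i 1)))
      (fderiv ℝ ξ (jn w x) (Pi.single i.succ.succ 1)) 0 := by
    have h2 := ((hξ.1.differentiable (by norm_num)) (jn w (x + (0:ℝ) • Pi.single i 1))).hasFDerivAt.comp_hasDerivAt (0:ℝ) h0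
    rwa [hjn] at h2
  have h5 := (hasDerivAt_pi.1 h1) i.succ.succ
  have h6 : HasDerivAt (fun τ : ℝ => sl ξ w (x + τ • Pi.single i 1))
      (fderiv ℝ (sl ξ w) x (Pi.single i 1)) 0 := by
    have h7 : HasDerivAt (fun τ : ℝ => x + τ • (Pi.single i 1 : Fin d → ℝ)) (Pi.single i 1) 0 := by
      simpa using ((hasDerivAt_id' (0:ℝ)).smul_const (Pi.single i 1 : Fin d → ℝ)).const_add x
    have h2 := (((adm_sl hξ w).1.differentiable (by norm_num)) (x + (0:ℝ) • (Pi.single i 1 : Fin d → ℝ))).hasFDerivAt.comp_hasDerivAt (0:ℝ) h7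
    simp only [zero_smul, add_zero] at h2
    exact h2
  exact ((hasDerivAt_pi.1 h6) i).unique h5

theorem dv_eq (w : ℝ × ℝ) (x : Fin d → ℝ) :
    dv ξ (jn w x) = (dd ξ 0 0 (jn w x) + dd ξ 1 1 (jn w x)) + dv (sl ξ w) x := by
  rw [dv_sl hξ]
  unfold dv
  rw [Fin.sum_univ_succ, Fin.sum_univ_succ, ← add_assoc]
  rfl

theorem cont_dd (i j : Fin (d + 2)) : Continuous (dd ξ i j) := by
  have h := (hξ.1.continuous_fderiv (by norm_num)).clm_apply
    (continuous_const (y := (Pi.single i 1 : Fin (d + 2) → ℝ)))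
  exact (continuous_pi_iff.1 h) j

theorem supp_dd (i j : Fin (d + 2)) : HasCompactSupport (dd ξ i j) :=
  (hξ.2.1.fderiv ℝ).comp_left (g := fun L : (Fin (d + 2) → ℝ) →L[ℝ] (Fin (d + 2) → ℝ) =>
    L (Pi.single i 1) j) rfl

theorem int_dd (i j : Fin (d + 2)) : Integrable (dd ξ i j) :=
  (cont_dd hξ i j).integrable_of_hasCompactSupport (supp_dd hξ i j)

theorem int_dd' (i j : Fin (d + 2)) :
    Integrable (fun p : (ℝ × ℝ) × (Fin d → ℝ) => dd ξ i j (jn p.1 p.2)) := by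
  have h := ((ee_mp d).integrable_comp_emb (ee d).measurableEmbedding).2 (int_dd hξ i j)
  refine h.congr (Filter.Eventually.of_forall fun p => ?_)
  simp only [Function.comp_apply, ee_apply]

theorem cont_slice (i j : Fin (d + 2)) (x : Fin d → ℝ) :
    Continuous fun w : ℝ × ℝ => dd ξ i j (jn w x) :=
  (cont_dd hξ i j).comp (continuous_in.comp (f := fun w : ℝ × ℝ => (w, x)) (by fun_prop))

omit hξ in
theorem intOn_sq (g : ℝ × ℝ → ℝ) (hg : Continuous g) (r : ℝ) :
    IntegrableOn g (Ioo 0 r ×ˢ Ioo 0 r) :=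
  (hg.continuousOn.integrableOn_compact (isCompact_Icc.prod isCompact_Icc)).mono_set
    (prod_mono Ioo_subset_Icc_self Ioo_subset_Icc_self)

theorem Q_eq {r : ℝ} (hr : 0 ≤ r) (x : Fin d → ℝ) :
    ∫ w in Ioo 0 r ×ˢ Ioo 0 r, (dd ξ 0 0 (jn w x) + dd ξ 1 1 (jn w x)) =
      (∫ t in Ioo 0 r, ξ (jn (r, t) x) 0) + ∫ s in Ioo 0 r, ξ (jn (s, r) x) 1 := by
  have hc0 := cont_slice hξ 0 0 x
  have hc1 := cont_slice hξ 1 1 x
  rw [integral_add (intOn_sq _ hc0 r) (intOn_sq _ hc1 r)]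
  congr 1
  · rw [Measure.volume_eq_prod, ← Measure.prod_restrict, integral_prod_symm]
    · refine integral_congr_ae (Filter.Eventually.of_forall fun t => ?_)
      beta_reduce
      refine ftc hr (f := fun s => ξ (jn (s, t) x) 0) (fun s => hasDerivAt0 hξ s t x 0)
        (hc0.comp (f := fun s : ℝ => (s, t)) (by fun_prop)) ?_
      have := zero_of hξ (jn (0, t) x) 0 (Or.inl le_rfl)
      simp [this]
    · rw [Measure.prod_restrict, ← Measure.volume_eq_prod]
      exact intOn_sq _ hc0 r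
  · rw [Measure.volume_eq_prod, ← Measure.prod_restrict, integral_prod]
    · refine integral_congr_ae (Filter.Eventually.of_forall fun s => ?_)
      beta_reduce
      refine ftc hr (f := fun t => ξ (jn (s, t) x) 1) (fun t => hasDerivAt1 hξ s t x 1)
        (hc1.comp (f := fun t : ℝ => (s, t)) (by fun_prop)) ?_
      have := zero_of hξ (jn (s, 0) x) 1 (Or.inl le_rfl)
      simp [this]
    · rw [Measure.prod_restrict, ← Measure.volume_eq_prod]
      exact intOn_sq _ hc1 r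

theorem Q_one (x : Fin d → ℝ) :
    ∫ w in Ioo 0 1 ×ˢ Ioo 0 1, (dd ξ 0 0 (jn w x) + dd ξ 1 1 (jn w x)) = 0 := by
  rw [Q_eq hξ zero_le_one x]
  have h1 : ∀ t, ξ (jn (1, t) x) 0 = 0 := fun t => by
    simp [zero_of hξ (jn (1, t) x) 0 (Or.inr le_rfl)]
  have h2 : ∀ s, ξ (jn (s, 1) x) 1 = 0 := fun s => by
    simp [zero_of hξ (jn (s, 1) x) 1 (Or.inr le_rfl)]
  simp [h1, h2]

theorem Q_le {r : ℝ} (hr : 0 ≤ r) (x : Fin d → ℝ) :
    |∫ w in Ioo 0 r ×ˢ Ioo 0 r, (dd ξ 0 0 (jn w x) + dd ξ 1 1 (jn w x))| ≤ 2 * r := by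
  rw [Q_eq hξ hr x]
  have h1 : |∫ t in Ioo 0 r, ξ (jn (r, t) x) 0| ≤ r := by
    have := norm_setIntegral_le_of_norm_le_const (μ := volume) (s := Ioo (0:ℝ) r) (C := 1)
      (f := fun t => ξ (jn (r, t) x) 0) (by simp) (fun t _ => abs_le hξ _ _)
    simpa [Measure.real, hr] using this
  have h2 : |∫ s in Ioo 0 r, ξ (jn (s, r) x) 1| ≤ r := by
    have := norm_setIntegral_le_of_norm_le_const (μ := volume) (s := Ioo (0:ℝ) r) (C := 1)
      (f := fun s => ξ (jn (s, r) x) 1) (by simp) (fun t _ => abs_le hξ _ _)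
    simpa [Measure.real, hr] using this
  refine (abs_add_le _ _).trans ?_
  linarith

theorem int_a : Integrable (fun p : (ℝ × ℝ) × (Fin d → ℝ) =>
    dd ξ 0 0 (jn p.1 p.2) + dd ξ 1 1 (jn p.1 p.2)) :=
  (int_dd' hξ 0 0).add (int_dd' hξ 1 1)

theorem int_c : Integrable (fun p : (ℝ × ℝ) × (Fin d → ℝ) => dv (sl ξ p.1) p.2) := by
  simp only [dv_sl hξ]
  exact integrable_finsetSum _ fun i _ => int_dd' hξ _ _

theorem main_int (W : Set (ℝ × ℝ)) (E : Set (Fin d → ℝ)) :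
    ∫ y in P W E, dv ξ y =
      (∫ x in E, ∫ w in W, (dd ξ 0 0 (jn w x) + dd ξ 1 1 (jn w x))) +
        ∫ w in W, ∫ x in E, dv (sl ξ w) x := by
  rw [int_P]
  simp only [dv_eq hξ]
  rw [integral_add (int_a hξ).integrableOn (int_c hξ).integrableOn]
  congr 1
  · rw [Measure.volume_eq_prod, ← Measure.prod_restrict, integral_prod_symm]
    rw [Measure.prod_restrict, ← Measure.volume_eq_prod]
    exact (int_a hξ).integrableOn
  · rw [Measure.volume_eq_prod, ← Measure.prod_restrict, integral_prod]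
    rw [Measure.prod_restrict, ← Measure.volume_eq_prod]
    exact (int_c hξ).integrableOn

theorem int_G (E : Set (Fin d → ℝ)) :
    Integrable (fun w : ℝ × ℝ => ∫ x in E, dv (sl ξ w) x) := by
  have h : Integrable (fun p : (ℝ × ℝ) × (Fin d → ℝ) => dv (sl ξ p.1) p.2)
      ((volume : Measure (ℝ × ℝ)).prod ((volume : Measure (Fin d → ℝ)).restrict E)) := by
    have := (int_c hξ).integrableOn (s := univ ×ˢ E)
    rwa [IntegrableOn, Measure.volume_eq_prod, ← Measure.prod_restrict,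
      Measure.restrict_univ] at this
  exact h.integral_prod_left

end Field

section Zero

variable {d : ℕ} {ζ : (Fin d → ℝ) → (Fin d → ℝ)} (hζ : Adm ζ)
include hζ

theorem int_dv : Integrable (dv ζ) := by
  refine integrable_finsetSum _ fun i _ => ?_
  have h := (hζ.1.continuous_fderiv (by norm_num)).clm_apply
    (continuous_const (y := (Pi.single i 1 : Fin d → ℝ)))
  refine ((continuous_pi_iff.1 h) i).integrable_of_hasCompactSupport ?_
  exact (hζ.2.1.fderiv ℝ).comp_left (g := fun L : (Fin d → ℝ) →L[ℝ] (Fin d → ℝ) =>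
    L (Pi.single i 1) i) rfl

theorem dv_zero : ∫ x in U d, dv ζ x = 0 := by
  have h1 : ∫ x in U d, dv ζ x = ∫ x, dv ζ x := by
    refine setIntegral_eq_integral_of_forall_compl_eq_zero fun x hx => ?_
    have h2 : x ∉ tsupport (fderiv ℝ ζ) := fun h => hx (hζ.2.2.1 (tsupport_fderiv_subset ℝ h))
    have h3 : fderiv ℝ ζ x = 0 := image_eq_zero_of_notMem_tsupport h2
    simp [dv, h3]
  rw [h1]
  unfold dv
  rw [integral_finsetSum]
  · refine Finset.sum_eq_zero fun i _ => ?_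
    have hd : Differentiable ℝ ζ := hζ.1.differentiable (by norm_num)
    have hcomp : ContDiff ℝ 1 fun x => ζ x i := (contDiff_pi.1 hζ.1) i
    have hsupp : HasCompactSupport fun x => ζ x i :=
      hζ.2.1.comp_left (g := fun v : Fin d → ℝ => v i) rfl
    have hf : ∀ x, fderiv ℝ ζ x (Pi.single i 1) i = fderiv ℝ (fun x => ζ x i) x (Pi.single i 1) := by
      intro x
      have := (hasFDerivAt_pi'.1 (hd x).hasFDerivAt) i
      rw [this.fderiv]
      rfl
    simp only [hf]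
    have hint : Integrable fun x => fderiv ℝ (fun x => ζ x i) x (Pi.single i 1) := by
      refine Continuous.integrable_of_hasCompactSupport ?_ ?_
      · exact (hcomp.continuous_fderiv (by norm_num)).clm_apply continuous_const
      · exact (hsupp.fderiv ℝ).comp_left (g := fun L : (Fin d → ℝ) →L[ℝ] ℝ =>
          L (Pi.single i 1)) rfl
    have := integral_mul_fderiv_eq_neg_fderiv_mul_of_integrable (𝕜 := ℝ) (μ := volume)
      (f := fun _ : Fin d → ℝ => (1:ℝ)) (g := fun x => ζ x i) (v := Pi.single i 1)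
      (by simp) (by simpa using hint)
      (by simpa using hcomp.continuous.integrable_of_hasCompactSupport hsupp)
      (by fun_prop) (fun x _ => (hcomp.differentiable (by norm_num)) x)
    simpa using this
  · intro i _
    have h := (hζ.1.continuous_fderiv (by norm_num)).clm_apply
      (continuous_const (y := (Pi.single i 1 : Fin d → ℝ)))
    refine ((continuous_pi_iff.1 h) i).integrable_of_hasCompactSupport ?_
    exact (hζ.2.1.fderiv ℝ).comp_left (g := fun L : (Fin d → ℝ) →L[ℝ] (Fin d → ℝ) =>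
      L (Pi.single i 1) i) rfl

end Zero

theorem vol_le {d : ℕ} (E : Set (Fin d → ℝ)) (hEU : E ⊆ U d) : volume E ≤ 1 := by
  have : volume E ≤ volume (Icc (0 : Fin d → ℝ) 1) :=
    measure_mono (hEU.trans Pool.Agent.H48R3.CP.U_sub)
  rwa [Pool.Agent.H48R3.CP.vol_Icc] at this

theorem vol_U (d : ℕ) : volume (U d) = 1 := by
  have h : U d = Set.pi univ fun _ : Fin d => Ioo (0:ℝ) 1 := by
    ext x
    simp [U]
  rw [h, volume_pi, Measure.pi_pi]
  simp

theorem meas_U (d : ℕ) : MeasurableSet (U d) := by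
  have h : U d = Set.pi univ fun _ : Fin d => Ioo (0:ℝ) 1 := by
    ext x
    simp [U]
  rw [h]
  exact MeasurableSet.univ_pi fun _ => measurableSet_Ioo

theorem vol_sq (r : ℝ) (hr : 0 ≤ r) :
    volume ((Ioo 0 r : Set ℝ) ×ˢ (Ioo 0 r : Set ℝ)) = ENNReal.ofReal (r ^ 2) := by
  rw [Measure.volume_eq_prod, Measure.prod_prod]
  simp [sq, ENNReal.ofReal_mul hr]

theorem P_sub {d : ℕ} {W : Set (ℝ × ℝ)} {E : Set (Fin d → ℝ)} (hE : E ⊆ U d)
    (hW : W ⊆ Ioo 0 1 ×ˢ Ioo 0 1) : P W E ⊆ U (d + 2) := by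
  rintro y ⟨h1, h2⟩ i
  have h3 := hW h1
  refine Fin.cases ?_ (fun j => ?_) i
  · exact h3.1
  · refine Fin.cases ?_ (fun k => ?_) j
    · exact h3.2
    · exact hE h2 k

section Bound

variable {d : ℕ} {ξ : (Fin (d + 2) → ℝ) → (Fin (d + 2) → ℝ)} (hξ : Adm ξ)
include hξ

theorem abs_QE {r : ℝ} (hr : 0 ≤ r) (E : Set (Fin d → ℝ)) (hEU : E ⊆ U d) :
    |∫ x in E, ∫ w in Ioo 0 r ×ˢ Ioo 0 r, (dd ξ 0 0 (jn w x) + dd ξ 1 1 (jn w x))| ≤ 2 * r := by
  have h := norm_setIntegral_le_of_norm_le_const (μ := volume) (s := E) (C := 2 * r)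
    (f := fun x => ∫ w in Ioo 0 r ×ˢ Ioo 0 r, (dd ξ 0 0 (jn w x) + dd ξ 1 1 (jn w x)))
    (lt_of_le_of_lt (vol_le E hEU) ENNReal.one_lt_top) (fun x _ => Q_le hξ hr x)
  have h1 : volume.real E ≤ 1 := by
    have := ENNReal.toReal_mono ENNReal.one_ne_top (vol_le E hEU)
    simpa [Measure.real] using this
  rw [Real.norm_eq_abs] at h
  have h2 : 2 * r * volume.real E ≤ 2 * r * 1 := by gcongr
  linarith

theorem G_le {E : Set (Fin d → ℝ)} {C ρ : ℝ} (hC : 0 ≤ C) (hPB : PB E C) (_hρ : 0 ≤ ρ)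
    (hρ1 : ρ ≤ 1) :
    (∫ w in (Ioo 0 1 : Set ℝ) ×ˢ (Ioo 0 1 : Set ℝ), ∫ x in E, dv (sl ξ w) x) -
      (∫ w in (Ioo 0 ρ : Set ℝ) ×ˢ (Ioo 0 ρ : Set ℝ), ∫ x in E, dv (sl ξ w) x) ≤ C := by
  have hsub : (Ioo 0 ρ : Set ℝ) ×ˢ (Ioo 0 ρ : Set ℝ) ⊆ (Ioo 0 1 : Set ℝ) ×ˢ (Ioo 0 1 : Set ℝ) :=
    prod_mono (Ioo_subset_Ioo_right hρ1) (Ioo_subset_Ioo_right hρ1)
  have hm : MeasurableSet ((Ioo 0 ρ : Set ℝ) ×ˢ (Ioo 0 ρ : Set ℝ)) :=
    measurableSet_Ioo.prod measurableSet_Ioo
  have hm1 : MeasurableSet ((Ioo 0 1 : Set ℝ) ×ˢ (Ioo 0 1 : Set ℝ)) :=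
    measurableSet_Ioo.prod measurableSet_Ioo
  rw [← setIntegral_sdiff hm (int_G hξ E).integrableOn hsub]
  have hv : volume (((Ioo 0 1 : Set ℝ) ×ˢ (Ioo 0 1 : Set ℝ)) \
      ((Ioo 0 ρ : Set ℝ) ×ˢ (Ioo 0 ρ : Set ℝ))) ≤ 1 := by
    refine (measure_mono sdiff_subset).trans ?_
    rw [vol_sq 1 zero_le_one]
    simp
  have h2 : volume.real (((Ioo 0 1 : Set ℝ) ×ˢ (Ioo 0 1 : Set ℝ)) \
      ((Ioo 0 ρ : Set ℝ) ×ˢ (Ioo 0 ρ : Set ℝ))) ≤ 1 := by
    have := ENNReal.toReal_mono ENNReal.one_ne_top hv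
    simpa [Measure.real] using this
  calc _ ≤ ∫ w in ((Ioo 0 1 : Set ℝ) ×ˢ (Ioo 0 1 : Set ℝ)) \
      ((Ioo 0 ρ : Set ℝ) ×ˢ (Ioo 0 ρ : Set ℝ)), C := by
        refine setIntegral_mono_on (int_G hξ E).integrableOn
          (integrableOn_const (ne_top_of_le_ne_top ENNReal.one_ne_top hv)) (hm1.diff hm)
          fun w _ => hPB _ (adm_sl hξ w)
    _ ≤ C := by
        rw [setIntegral_const, smul_eq_mul]
        nlinarith

end Bound

end Corner

open Corner

theorem corner {d : ℕ} (v C ρ : ℝ) (hv : 0 ≤ v) (hv1 : v ≤ 1) (hC : 0 ≤ C) (hρ : 0 ≤ ρ)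
    (hρ1 : ρ ≤ 1) (h : Ach d v C) :
    Ach (d + 2) (v + (1 - v) * ρ ^ 2) (C + 2 * ρ) ∧
      Ach (d + 2) (v * (1 - ρ ^ 2)) (C + 2 * ρ) := by
  obtain ⟨E, hE, hEU, hEv, hPB⟩ := h
  set I2 : Set (ℝ × ℝ) := Ioo 0 1 ×ˢ Ioo 0 1 with hI2
  set R2 : Set (ℝ × ℝ) := Ioo 0 ρ ×ˢ Ioo 0 ρ with hR2
  have hsub : R2 ⊆ I2 := prod_mono (Ioo_subset_Ioo_right hρ1) (Ioo_subset_Ioo_right hρ1)
  have hmR : MeasurableSet R2 := measurableSet_Ioo.prod measurableSet_Ioo
  have hmI : MeasurableSet I2 := measurableSet_Ioo.prod measurableSet_Ioo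
  have hvI : volume I2 = 1 := by rw [hI2, vol_sq 1 zero_le_one]; simp
  have hvR : volume R2 = ENNReal.ofReal (ρ ^ 2) := vol_sq ρ hρ
  have hmc : MeasurableSet (U d \ E) := (meas_U d).diff hE
  have hvc : volume (U d \ E) = ENNReal.ofReal (1 - v) := by
    rw [measure_sdiff hEU hE.nullMeasurableSet (by rw [hEv]; exact ENNReal.ofReal_ne_top), vol_U,
      hEv, ENNReal.ofReal_sub _ hv, ENNReal.ofReal_one]
  have hρ2 : ρ ^ 2 ≤ 1 := by nlinarith
  constructor
  · refine ⟨P I2 E ∪ P R2 (U d \ E), (meas_P hmI hE).union (meas_P hmR hmc),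
      union_subset (P_sub hEU Subset.rfl) (P_sub sdiff_subset hsub), ?_, ?_⟩
    · have hdis : Disjoint (P I2 E) (P R2 (U d \ E)) := by
        rw [Set.disjoint_left]
        rintro y ⟨_, h1⟩ ⟨_, h2⟩
        exact h2.2 h1
      rw [measure_union hdis (meas_P hmR hmc), vol_P hmI hE, vol_P hmR hmc, hvI, hvR, hEv, hvc,
        one_mul, ← ENNReal.ofReal_mul (by positivity), ← ENNReal.ofReal_add hv
        (mul_nonneg (by positivity) (by linarith))]
      congr 1
      ring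
    · intro ξ hξ
      have hdis : Disjoint (P I2 E) (P R2 (U d \ E)) := by
        rw [Set.disjoint_left]
        rintro y ⟨_, h1⟩ ⟨_, h2⟩
        exact h2.2 h1
      rw [setIntegral_union hdis (meas_P hmR hmc) (int_dv hξ).integrableOn
        (int_dv hξ).integrableOn, main_int hξ, main_int hξ]
      have h1 : ∫ x in E, ∫ w in I2, (dd ξ 0 0 (jn w x) + dd ξ 1 1 (jn w x)) = 0 := by
        simp only [hI2, Q_one hξ, integral_zero]
      have h2 := (abs_le.1 (abs_QE hξ hρ (U d \ E) sdiff_subset)).2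
      have h3 : ∫ w in R2, ∫ x in U d \ E, dv (sl ξ w) x =
          - ∫ w in R2, ∫ x in E, dv (sl ξ w) x := by
        rw [← integral_neg]
        refine integral_congr_ae (Filter.Eventually.of_forall fun w => ?_)
        beta_reduce
        rw [setIntegral_sdiff hE (int_dv (adm_sl hξ w)).integrableOn hEU,
          dv_zero (adm_sl hξ w), zero_sub]
      have h4 := G_le hξ hC hPB hρ hρ1
      rw [h1, h3]
      rw [← hI2, ← hR2] at h4
      rw [← hR2] at h2
      linarith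
  · have hsub2 : P R2 E ⊆ P I2 E := fun y hy => ⟨hsub hy.1, hy.2⟩
    refine ⟨P I2 E \ P R2 E, (meas_P hmI hE).diff (meas_P hmR hE),
      sdiff_subset.trans (P_sub hEU Subset.rfl), ?_, ?_⟩
    · rw [measure_sdiff hsub2 (meas_P hmR hE).nullMeasurableSet, vol_P hmI hE, vol_P hmR hE, hvI,
        hvR, hEv, one_mul, ← ENNReal.ofReal_mul (by positivity),
        ← ENNReal.ofReal_sub _ (by positivity)]
      · congr 1
        ring
      · rw [vol_P hmR hE, hvR, hEv]
        exact ENNReal.mul_ne_top ENNReal.ofReal_ne_top ENNReal.ofReal_ne_top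
    · intro ξ hξ
      rw [setIntegral_sdiff (meas_P hmR hE) (int_dv hξ).integrableOn hsub2, main_int hξ,
        main_int hξ]
      have h1 : ∫ x in E, ∫ w in I2, (dd ξ 0 0 (jn w x) + dd ξ 1 1 (jn w x)) = 0 := by
        simp only [hI2, Q_one hξ, integral_zero]
      have h2 := (abs_le.1 (abs_QE hξ hρ E hEU)).1
      have h4 := G_le hξ hC hPB hρ hρ1
      rw [h1]
      rw [← hI2, ← hR2] at h4
      rw [← hR2] at h2
      linarith

end Pool.Agent.H62
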